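import Mathlib
import Pool.Agent.Y509.DyadicCp.Sigma

set_option autoImplicit false

open Set Topology Cardinal TopologicalSpace

namespace Pool.Agent.Results.MP_158c61_gt.WeightBounds

/-- A family of subsets of `Z` is discrete if every point of `Z` has a neighbourhood that
meets at most one member of the family. -/
def DiscreteFamily {Z : Type} [TopologicalSpace Z] (D : Set (Set Z)) : Prop :=
  ∀ z : Z, ∃ V ∈ 𝓝 z, ∀ A ∈ D, ∀ B ∈ D, (A ∩ V).Nonempty → (B ∩ V).Nonempty → A = B

/-- Every open cover of `Z` has a closed refinement which is a countable union of discrete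
families. -/
def Subparacompact (Z : Type) [TopologicalSpace Z] : Prop :=
  ∀ U : Set (Set Z), (∀ u ∈ U, IsOpen u) → ⋃₀ U = Set.univ →
    ∃ D : ℕ → Set (Set Z), (∀ n, DiscreteFamily (D n)) ∧ (∀ n, ∀ A ∈ D n, IsClosed A) ∧
      (∀ n, ∀ A ∈ D n, ∃ u ∈ U, A ⊆ u) ∧ (⋃ n, ⋃₀ (D n)) = Set.univ

/-- Every subspace of `Z` is subparacompact. -/
def HereditarilySubparacompact (Z : Type) [TopologicalSpace Z] : Prop :=
  ∀ S : Set Z, Subparacompact S

/-- `Z` has a network that is the union of countably many locally finite families of closed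
sets. (A regular space with this property is called a sigma-space.) -/
def SigmaSpace (Z : Type) [TopologicalSpace Z] : Prop :=
  ∃ (J : ℕ → Type) (N : (n : ℕ) → J n → Set Z), (∀ n, LocallyFinite (N n)) ∧
    (∀ n j, IsClosed (N n j)) ∧ ∀ z : Z, ∀ W ∈ 𝓝 z, ∃ n j, z ∈ N n j ∧ N n j ⊆ W

/-- `X` is a compact Hausdorff continuous image of a Cantor cube. -/
def DyadicCompact (X : Type) [TopologicalSpace X] : Prop :=
  CompactSpace X ∧ T2Space X ∧ ∃ (κ : Type) (f : (κ → Bool) → X), Continuous f ∧
    Function.Surjective f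

/-- The space `C_p(X)` of continuous real functions with the topology of pointwise
convergence. -/
abbrev Cp (X : Type) [TopologicalSpace X] : Type := {f : X → ℝ // Continuous f}

/-- The weight of `X` is at most `c`: there is a base with at most `c` members. -/
def WeightLE (X : Type) [TopologicalSpace X] (c : Cardinal.{0}) : Prop :=
  ∃ B : Set (Set X), IsTopologicalBasis B ∧ #B ≤ c

theorem sub_iff (Z : Type) [TopologicalSpace Z] :
    Subparacompact Z ↔ CantorCube.Subparacompact Z := Iff.rfl

theorem sigma_of_weight (X : Type) [TopologicalSpace X] (hX : DyadicCompact X)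
    (h : WeightLE X 𝔠) : SigmaSpace (Cp X) := by
  obtain ⟨h1, h2, κ, f, hf, hfs⟩ := hX
  obtain ⟨B, hB, hBc⟩ := h
  have hZ : #(ℕ → Bool) = 𝔠 := by
    simp only [Cardinal.mk_pi, Cardinal.prod_const, Cardinal.lift_id, Cardinal.mk_fintype,
      Fintype.card_bool, Cardinal.mk_nat, Nat.cast_ofNat, Cardinal.two_power_aleph0]
  obtain ⟨f', hf', hfs'⟩ := Pool.Agent.Y509.DyadicCp.factor f hf hfs (ℕ → Bool)
    (by rw [hZ]; exact Cardinal.aleph0_le_continuum) B hB (by rw [hZ]; exact hBc)
  exact Pool.Agent.Y509.DyadicCp.sigma_of_embedding _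
    (Pool.Agent.Y509.DyadicCp.isEmbedding_comp f' hf' hfs') Pool.Agent.Y509.DyadicCp.sigma_cube

theorem weight_cube (κ : Type) (c : Cardinal.{0}) (hc : ℵ₀ ≤ c) (hκ : #κ ≤ c) :
    WeightLE (κ → Bool) c := by
  classical
  refine ⟨range fun p : Finset κ × Finset κ =>
    {x : κ → Bool | (∀ k ∈ p.1, x k = true) ∧ ∀ k ∈ p.2, x k = false}, ?_, ?_⟩
  · refine isTopologicalBasis_of_isOpen_of_nhds ?_ ?_
    · rintro _ ⟨p, rfl⟩
      have h1 : ∀ (b : Bool) (F : Finset κ), IsOpen {x : κ → Bool | ∀ k ∈ F, x k = b} := by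
        intro b F
        have : {x : κ → Bool | ∀ k ∈ F, x k = b} = ⋂ k ∈ F, {x | x k = b} := by
          ext x
          simp
        rw [this]
        exact isOpen_biInter_finset fun k _ =>
          IsOpen.preimage (f := fun x : κ → Bool => x k) (continuous_apply k)
            (isOpen_discrete ({b} : Set Bool))
      exact (h1 true p.1).inter (h1 false p.2)
    · intro x U hx hU
      obtain ⟨F, hF⟩ := Pool.Agent.Y509.DyadicCp.nhds_fin_bool x U (hU.mem_nhds hx)
      refine ⟨_, ⟨(F.filter fun k => x k = true, F.filter fun k => x k = false), rfl⟩, ?_, ?_⟩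
      · refine ⟨fun k hk => (Finset.mem_filter.1 hk).2, fun k hk => (Finset.mem_filter.1 hk).2⟩
      · rintro y ⟨hy1, hy2⟩
        refine hF y fun k hk => ?_
        cases hxk : x k
        · exact hy2 k (Finset.mem_filter.2 ⟨hk, hxk⟩)
        · exact hy1 k (Finset.mem_filter.2 ⟨hk, hxk⟩)
  · refine Cardinal.mk_range_le.trans ?_
    have h1 : #(Finset κ) ≤ c := by
      rcases finite_or_infinite κ with h | h
      · haveI := Fintype.ofFinite κ
        exact (Cardinal.mk_lt_aleph0.le).trans hc
      · rw [Cardinal.mk_finset_of_infinite]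
        exact hκ
    rw [Cardinal.mk_prod, Cardinal.lift_id]
    exact (mul_le_mul' h1 h1).trans (Cardinal.mul_eq_self hc).le

/-- **Dyadic compact spaces `X` with (hereditarily) subparacompact `C_p(X)`.** Let `X` be a dyadic
compact space.
(1) `C_p(X)` is a sigma-space if and only if `w(X) ≤ 𝔠`.
(2) If `w(X) ≤ 𝔠`, then `C_p(X)` is hereditarily subparacompact.
(3) If `C_p(X)` is subparacompact, then `w(X) ≤ 2 ^ 𝔠`.
(4) For an uncountable index set `κ` with at most `𝔠` elements the Cantor cube `2 ^ κ` is a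
non-metrizable dyadic compact space whose `C_p` is hereditarily subparacompact; for `#κ > 2 ^ 𝔠`
its `C_p` is not even subparacompact.
(5) For every topological space `X`, if `C_p(X)` is subparacompact then all closed discrete subsets
of `C_p(X)` have at most `2 ^ 𝔠` points. -/
theorem result :
    (∀ (X : Type) [TopologicalSpace X], DyadicCompact X →
      (SigmaSpace (Cp X) ↔ WeightLE X 𝔠) ∧
      (WeightLE X 𝔠 → Subparacompact (Cp X) ∧ HereditarilySubparacompact (Cp X)) ∧
      (Subparacompact (Cp X) → WeightLE X (2 ^ 𝔠))) ∧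
    (∀ κ : Type, Uncountable κ → #κ ≤ 𝔠 → DyadicCompact (κ → Bool) ∧
      ¬ MetrizableSpace (κ → Bool) ∧ Subparacompact (Cp (κ → Bool)) ∧
      HereditarilySubparacompact (Cp (κ → Bool))) ∧
    (∀ κ : Type, 2 ^ 𝔠 < #κ → ¬ Subparacompact (Cp (κ → Bool))) ∧
    (∀ (X : Type) [TopologicalSpace X], Subparacompact (Cp X) →
      ∀ D : Set (Cp X), IsClosed D → DiscreteTopology D → #D ≤ 2 ^ 𝔠) := by
  have hher : ∀ (X : Type) [TopologicalSpace X], SigmaSpace (Cp X) →
      Subparacompact (Cp X) ∧ HereditarilySubparacompact (Cp X) := by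
    intro X _ h
    have h1 : CantorCube.HereditarilySubparacompact (Cp X) :=
      Pool.Agent.Y509.DyadicCp.hereditarily_of_sigma h
    exact ⟨CantorCube.subparacompact_of_hereditarily h1, h1⟩
  have hcube : ∀ κ : Type, DyadicCompact (κ → Bool) := fun κ =>
    ⟨inferInstance, inferInstance, κ, id, continuous_id, Function.surjective_id⟩
  refine ⟨fun X _ hX => ⟨⟨fun h => ?_, sigma_of_weight X hX⟩,
    fun h => hher X (sigma_of_weight X hX h), fun h => ?_⟩, fun κ hκ hκc => ?_, fun κ hκ h => ?_,
    fun X _ h D hD1 hD2 => Pool.Agent.Y509.DyadicCp.card_closedDiscrete_le h D hD1 hD2⟩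
  · obtain ⟨h1, h2, -⟩ := hX
    obtain ⟨C, hC, hd⟩ := Pool.Agent.Y509.DyadicCp.dense_of_sigma h
    exact Pool.Agent.Y509.DyadicCp.base_of_dense C hC hd
  · obtain ⟨h1, h2, κ, f, hf, hfs⟩ := hX
    obtain ⟨B, hB, hBc⟩ := Pool.Agent.Y509.DyadicCp.exists_base (X := X)
    exact ⟨B, hB, hBc.trans (Pool.Agent.Y509.DyadicCp.card_fn_le f hf hfs h)⟩
  · obtain ⟨h1, h2⟩ := hher (κ → Bool) (sigma_of_weight _ (hcube κ)
      (weight_cube κ 𝔠 Cardinal.aleph0_le_continuum hκc))
    exact ⟨hcube κ, Pool.Agent.Y509.DyadicCp.not_metrizable κ, h1, h2⟩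
  · have h1 := Pool.Agent.Y509.DyadicCp.card_fn_le (X := κ → Bool) id continuous_id
      Function.surjective_id h
    have h2 : #κ ≤ #(Cp (κ → Bool)) := by
      refine Cardinal.mk_le_of_injective (f := fun k : κ =>
        (⟨fun x => if x k = true then (1 : ℝ) else 0, ?_⟩ : Cp (κ → Bool))) ?_
      · exact (continuous_of_discreteTopology (f := fun b : Bool =>
          if b = true then (1 : ℝ) else 0)).comp (continuous_apply k)
      · intro k k' hkk
        classical
        by_contra hne
        have h3 := congrFun (congrArg Subtype.val hkk) (fun j => decide (j = k))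
        have h4 : ¬ (k' = k) := fun h => hne h.symm
        simp [h4] at h3
    exact absurd (h2.trans h1) (not_le.2 hκ)

end Pool.Agent.Results.MP_158c61_gt.WeightBounds
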